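import Mathlib

/-!
# Extensions of Baire groups by compact normal subgroups are Baire
-/

namespace Pool.Agent.Results.MP_0c5bac_gt.BaireExtension

open Filter Topology Set

universe u v

variable {X : Type u} {Y : Type v} [TopologicalSpace X] [TopologicalSpace Y]

/-- The families of open sets used at each stage of the construction. -/
structure Good (p : X → Y) (W : Set X) (𝒱 : Set (Set X)) : Prop where
  isOpen : ∀ V ∈ 𝒱, IsOpen V
  disj : ∀ V ∈ 𝒱, ∀ V' ∈ 𝒱, (p '' V ∩ p '' V').Nonempty → V = V'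
  dense : ∀ O : Set Y, IsOpen O → O.Nonempty → O ⊆ p '' W → ∃ V ∈ 𝒱, (O ∩ p '' V).Nonempty

lemma step [RegularSpace X] {p : X → Y} (hp : Continuous p) {W : Set X}
    {𝒱 : Set (Set X)} (h𝒱 : Good p W 𝒱) {U : Set X} (hU : IsOpen U) (hUd : Dense U) :
    ∃ 𝒱' : Set (Set X), Good p W 𝒱' ∧ ∀ V ∈ 𝒱', ∃ V' ∈ 𝒱, closure V ⊆ U ∩ V' := by
  classical
  let S : Set (Set (Set X)) := {𝒜 | (∀ V ∈ 𝒜, IsOpen V ∧ V.Nonempty ∧ ∃ V' ∈ 𝒱, closure V ⊆ U ∩ V') ∧
    ∀ V ∈ 𝒜, ∀ V' ∈ 𝒜, (p '' V ∩ p '' V').Nonempty → V = V'}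
  obtain ⟨M, hM⟩ : ∃ M, Maximal (· ∈ S) M := by
    apply zorn_subset
    intro c hcS hc
    refine ⟨⋃₀ c, ⟨?_, ?_⟩, fun s hs => subset_sUnion_of_mem hs⟩
    · rintro V ⟨s, hs, hV⟩
      exact (hcS hs).1 V hV
    · rintro V ⟨s, hs, hV⟩ V' ⟨s', hs', hV'⟩ h
      rcases hc.total hs hs' with h1 | h1
      · exact (hcS hs').2 V (h1 hV) V' hV' h
      · exact (hcS hs).2 V hV V' (h1 hV') h
  refine ⟨M, ⟨fun V hV => (hM.prop.1 V hV).1, hM.prop.2, ?_⟩, fun V hV => (hM.prop.1 V hV).2.2⟩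
  intro O hO hOne hOW
  by_contra hcon
  push Not at hcon
  obtain ⟨V', hV', hne⟩ := h𝒱.dense O hO hOne hOW
  obtain ⟨_, hy, ⟨x, hx, rfl⟩⟩ := hne
  have hop : IsOpen (V' ∩ p ⁻¹' O) := (h𝒱.isOpen V' hV').inter (hO.preimage hp)
  obtain ⟨z, ⟨hz1, hz2⟩, hz3⟩ := hUd.inter_open_nonempty _ hop ⟨x, hx, hy⟩
  have hnh : U ∩ (V' ∩ p ⁻¹' O) ∈ 𝓝 z := (hU.inter hop).mem_nhds ⟨hz3, hz1, hz2⟩
  obtain ⟨C, ⟨hCz, hCc⟩, hC⟩ := (closed_nhds_basis z).mem_iff.1 hnh
  have hcl : closure (interior C) ⊆ C := closure_minimal interior_subset hCc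
  have hins : insert (interior C) M ∈ S := by
    have hzi : z ∈ interior C := mem_interior_iff_mem_nhds.2 hCz
    have hd : ∀ V ∈ M, ¬ (p '' interior C ∩ p '' V).Nonempty := by
      rintro V hV ⟨_, ⟨a, ha, rfl⟩, hb⟩
      have h1 := hcon V hV
      have h2 : p a ∈ O ∩ p '' V := ⟨(hC (interior_subset ha)).2.2, hb⟩
      rw [h1] at h2
      exact h2
    refine ⟨?_, ?_⟩
    · intro V hV
      rcases hV with rfl | hV
      · exact ⟨isOpen_interior, ⟨z, hzi⟩, V', hV', fun a ha =>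
          ⟨(hC (hcl ha)).1, (hC (hcl ha)).2.1⟩⟩
      · exact hM.prop.1 V hV
    · intro V hV V'' hV'' h
      rcases hV with rfl | hV
      · rcases hV'' with rfl | hV''
        · rfl
        · exact absurd h (hd V'' hV'')
      · rcases hV'' with rfl | hV''
        · rw [inter_comm] at h
          exact absurd h (hd V hV)
        · exact hM.prop.2 V hV V'' hV'' h
  have hmem : interior C ∈ M := hM.le_of_ge hins (subset_insert _ _) (mem_insert _ _)
  have h1 := hcon _ hmem
  have hzi : z ∈ interior C := mem_interior_iff_mem_nhds.2 hCz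
  have h2 : p z ∈ O ∩ p '' interior C := ⟨hz2, z, hzi, rfl⟩
  rw [h1] at h2
  exact h2

/-- If `p : X → Y` is a continuous open map with compact fibres, `X` is regular and `Y` is Baire,
then `X` is Baire. -/
theorem baire_of_open_compact_fibres [RegularSpace X] [BaireSpace Y] {p : X → Y}
    (hp : Continuous p) (hpo : IsOpenMap p) (hpc : ∀ y, IsCompact (p ⁻¹' {y})) :
    BaireSpace X := by
  refine ⟨fun U hU hUd => ?_⟩
  rw [dense_iff_inter_open]
  intro W hW hWne
  -- the families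
  have h0 : Good p W {W} := by
    refine ⟨?_, ?_, ?_⟩
    · rintro V rfl
      exact hW
    · rintro V rfl V' rfl _
      rfl
    · intro O hO hOne hOW
      refine ⟨W, rfl, ?_⟩
      rw [inter_eq_self_of_subset_left hOW]
      exact hOne
  let F : ℕ → {𝒱 : Set (Set X) // Good p W 𝒱} := fun n => Nat.rec ⟨{W}, h0⟩
    (fun n 𝒱 => ⟨(step hp 𝒱.2 (hU n) (hUd n)).choose,
      (step hp 𝒱.2 (hU n) (hUd n)).choose_spec.1⟩) n
  have hF0 : (F 0).1 = {W} := rfl
  have hF : ∀ n, ∀ V ∈ (F (n + 1)).1, ∃ V' ∈ (F n).1, closure V ⊆ U n ∩ V' := fun n =>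
    (step hp (F n).2 (hU n) (hUd n)).choose_spec.2
  -- a point of `Y` in all the unions
  have hopen : ∀ n, IsOpen ((⋃ V ∈ (F n).1, p '' V) ∪ (closure (p '' W))ᶜ) := fun n =>
    (isOpen_biUnion fun V hV => hpo V ((F n).2.isOpen V hV)).union isClosed_closure.isOpen_compl
  have hdense : ∀ n, Dense ((⋃ V ∈ (F n).1, p '' V) ∪ (closure (p '' W))ᶜ) := by
    intro n
    rw [dense_iff_inter_open]
    intro O hO hOne
    by_cases h : (O ∩ p '' W).Nonempty
    · obtain ⟨V, hV, y, hy1, hy2⟩ := (F n).2.dense (O ∩ p '' W) (hO.inter (hpo W hW)) h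
        inter_subset_right
      exact ⟨y, hy1.1, Or.inl (mem_biUnion hV hy2)⟩
    · obtain ⟨y, hy⟩ := hOne
      refine ⟨y, hy, Or.inr fun hy' => h ?_⟩
      exact mem_closure_iff.1 hy' O hO hy
  obtain ⟨y, hyW, hy⟩ := (dense_iInter_of_isOpen_nat hopen hdense).inter_open_nonempty _
    (hpo W hW) (hWne.image p)
  rw [mem_iInter] at hy
  have hy' : ∀ n, ∃ V ∈ (F n).1, y ∈ p '' V := by
    intro n
    rcases hy n with h | h
    · simpa using h
    · exact absurd (subset_closure hyW) h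
  choose V hV hyV using hy'
  have hVs : ∀ n, closure (V (n + 1)) ⊆ U n ∩ V n := by
    intro n
    obtain ⟨V', hV', hc⟩ := hF n (V (n + 1)) (hV (n + 1))
    have : V' = V n := by
      apply (F n).2.disj V' hV' (V n) (hV n)
      refine ⟨y, ?_, hyV n⟩
      exact image_mono (fun a ha => (hc (subset_closure ha)).2) (hyV (n + 1))
    rw [← this]
    exact hc
  have hVW : V 0 = W := hV 0
  have hanti : Antitone V := antitone_nat_of_succ_le fun n a ha =>
    (hVs n (subset_closure ha)).2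
  -- a point of `X`
  obtain ⟨x, -, hx⟩ := (hpc y).inter_iInter_nonempty (fun n => closure (V n))
    (fun n => isClosed_closure) (by
      intro u
      obtain ⟨x, hx, hxy⟩ := hyV (u.sup id)
      refine ⟨x, hxy, ?_⟩
      simp only [mem_iInter]
      intro i hi
      exact subset_closure (hanti (Finset.le_sup (f := id) hi) hx))
  rw [mem_iInter] at hx
  refine ⟨x, ?_, ?_⟩
  · rw [← hVW]
    exact (hVs 0 (hx 1)).2
  · rw [mem_iInter]
    intro n
    exact (hVs n (hx (n + 1))).1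

/-- Let `G` be a topological group and `K` a compact normal subgroup such that `G ⧸ K` is a Baire
space. Then `G` is a Baire space. No separation axiom is assumed. -/
theorem result (G : Type u) [Group G] [TopologicalSpace G] [IsTopologicalGroup G]
    (K : Subgroup G) [K.Normal] (hK : IsCompact (K : Set G)) (hB : BaireSpace (G ⧸ K)) :
    BaireSpace G := by
  apply baire_of_open_compact_fibres (p := (QuotientGroup.mk : G → G ⧸ K))
    QuotientGroup.continuous_mk QuotientGroup.isOpenMap_coe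
  intro y
  obtain ⟨g, rfl⟩ := QuotientGroup.mk_surjective y
  have : (QuotientGroup.mk : G → G ⧸ K) ⁻¹' {(g : G ⧸ K)} = (fun k => g * k) '' (K : Set G) := by
    ext x
    simp only [mem_preimage, mem_singleton_iff, mem_image, SetLike.mem_coe]
    constructor
    · intro h
      exact ⟨g⁻¹ * x, QuotientGroup.eq.1 h.symm, by group⟩
    · rintro ⟨k, hk, rfl⟩
      exact (QuotientGroup.eq.2 (by simpa using hk)).symm
  rw [this]
  exact hK.image (continuous_const_mul g)

end Pool.Agent.Results.MP_0c5bac_gt.BaireExtension
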